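import Mathlib

/-!
# The conjectured maximum edge count of semi-arc `k`-visibility graphs is exceeded for all
`n ≥ 3k+4`
-/

namespace Pool.Agent.Results.MP_5402c6_co.ConjectureFails

open Real

/-- The point with the polar coordinates `(r, α)`; `r` may be negative (the point is then
`(|r|, α + π)`). -/
noncomputable def pt (r α : ℝ) : ℂ := (r : ℂ) * Complex.exp ((α : ℂ) * Complex.I)

/-- An arc centred at the origin, of radius `r`, from the angle `α₁` to the angle `α₂`. -/
structure Arc where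
  r : ℝ
  α₁ : ℝ
  α₂ : ℝ
  r_pos : 0 < r
  nonneg : 0 ≤ α₁
  lt : α₁ < 2 * π
  le : α₁ ≤ α₂
  short : α₂ - α₁ < 2 * π

/-- the points of an arc -/
def Arc.set (a : Arc) : Set ℂ := {z | ∃ α, a.α₁ ≤ α ∧ α ≤ a.α₂ ∧ z = pt a.r α}

/-- A non-degenerate cone: the region covered by the segments from `(ρ₁, θ)` to `(ρ₂, θ)`,
`θ₁ ≤ θ ≤ θ₂`. If `ρ₁` is negative and `ρ₂` positive, the cone passes through the origin and its
two radial sides intersect there. -/
structure Cone where
  ρ₁ : ℝ
  ρ₂ : ℝ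
  θ₁ : ℝ
  θ₂ : ℝ
  ne₁ : ρ₁ ≠ 0
  ne₂ : ρ₂ ≠ 0
  lt : ρ₁ < ρ₂
  angle : θ₁ < θ₂
  small : θ₂ - θ₁ < π

/-- the points of a cone -/
def Cone.set (C : Cone) : Set ℂ :=
  {z | ∃ ρ θ, C.ρ₁ ≤ ρ ∧ ρ ≤ C.ρ₂ ∧ C.θ₁ ≤ θ ∧ θ ≤ C.θ₂ ∧ z = pt ρ θ}

/-- the first circular side -/
def Cone.side₁ (C : Cone) : Set ℂ := {z | ∃ θ, C.θ₁ ≤ θ ∧ θ ≤ C.θ₂ ∧ z = pt C.ρ₁ θ}

/-- the second circular side -/
def Cone.side₂ (C : Cone) : Set ℂ := {z | ∃ θ, C.θ₁ ≤ θ ∧ θ ≤ C.θ₂ ∧ z = pt C.ρ₂ θ}

/-- There is a cone whose first circular side is in the arc `a`, whose second one is in the arc `b`,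
and which meets at most `k` other arcs of the family. -/
def Sees {ι : Type} (k : ℕ) (F : ι → Arc) (a b : ι) : Prop :=
  ∃ C : Cone, C.side₁ ⊆ (F a).set ∧ C.side₂ ⊆ (F b).set ∧
    {c | c ≠ a ∧ c ≠ b ∧ ((F c).set ∩ C.set).Nonempty}.encard ≤ k

/-- `G` is a semi-arc `k`-visibility graph: it has a representation in which the negative endpoint
of every arc is on the positive `x`-axis. -/
def SemiArcVisibility {V : Type} (k : ℕ) (G : SimpleGraph V) : Prop :=
  ∃ F : V → Arc, (∀ u v, u ≠ v → Disjoint (F u).set (F v).set) ∧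
    (∀ v, (F v).α₁ = 0) ∧
    ∀ u v, u ≠ v → (G.Adj u v ↔ Sees k F u v ∨ Sees k F v u)

/-- `e k n`: the maximum number of edges of a semi-arc `k`-visibility graph on `n` vertices. -/
noncomputable def e (k n : ℕ) : ℕ :=
  sSup {N : ℕ | ∃ G : SimpleGraph (Fin n), SemiArcVisibility k G ∧ N = G.edgeSet.ncard}

theorem norm_pt (r α : ℝ) : ‖pt r α‖ = |r| := by
  unfold pt
  rw [norm_mul, Complex.norm_exp_ofReal_mul_I, mul_one, Complex.norm_real, Real.norm_eq_abs]

theorem pt_neg (r α : ℝ) : pt (-r) α = pt r (α + π) := by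
  unfold pt
  push_cast
  rw [add_mul, Complex.exp_add, Complex.exp_pi_mul_I]
  ring

/-- uniqueness of polar coordinates -/
theorem pt_inj {r s α β : ℝ} (hr : 0 < r) (hs : 0 < s) (h1 : 0 ≤ α) (h2 : α < 2 * π) (h3 : 0 ≤ β)
    (h4 : β < 2 * π) (h : pt r α = pt s β) : r = s ∧ α = β := by
  have h5 : r = s := by
    have := congrArg norm h
    rwa [norm_pt, norm_pt, abs_of_pos hr, abs_of_pos hs] at this
  subst h5
  refine ⟨rfl, ?_⟩
  unfold pt at h
  have h6 : Complex.exp ((α : ℂ) * Complex.I) = Complex.exp ((β : ℂ) * Complex.I) :=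
    mul_left_cancel₀ (by exact_mod_cast ne_of_gt hr) h
  obtain ⟨m, hm⟩ := Complex.exp_eq_exp_iff_exists_int.1 h6
  have h7 : (α : ℂ) = β + m * (2 * π) := by
    have : ((α : ℂ) - (β + m * (2 * π))) * Complex.I = 0 := by
      rw [sub_mul, hm]; ring
    have := (mul_eq_zero.1 this).resolve_right Complex.I_ne_zero
    linear_combination this
  have h8 : α = β + m * (2 * π) := by exact_mod_cast h7
  have hpi : (0 : ℝ) < 2 * π := by positivity
  have hm0 : m = 0 := by
    have a1 : (m : ℝ) * (2 * π) < 1 * (2 * π) := by linarith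
    have a2 : (-1 : ℝ) * (2 * π) < m * (2 * π) := by linarith
    have b1 : (m : ℝ) < 1 := lt_of_mul_lt_mul_right a1 hpi.le
    have b2 : (-1 : ℝ) < m := lt_of_mul_lt_mul_right a2 hpi.le
    have b1' : m < 1 := by exact_mod_cast b1
    have b2' : -1 < m := by exact_mod_cast b2
    omega
  rw [h8, hm0]
  simp

/-! ### The representation -/

/-- the position of the end of the arc `i` among all `3 k + 4` ends (modulo `π`) -/
def pos (k i : ℕ) : ℕ := if i ≤ k + 1 then k + 2 + i else if i ≤ 2 * k + 2 then i - k - 1 else i + 1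

theorem pos_pos (k i : ℕ) : 1 ≤ pos k i := by
  unfold pos
  split_ifs <;> omega

theorem pos_le {k i : ℕ} (h : i < 3 * k + 4) : pos k i ≤ 3 * k + 4 := by
  unfold pos
  split_ifs <;> omega

/-- the unit of angle -/
noncomputable def δ (k : ℕ) : ℝ := π / (3 * k + 5)

theorem δ_pos (k : ℕ) : 0 < δ k := by
  unfold δ
  positivity

theorem δ_mul (k : ℕ) : (3 * k + 5 : ℝ) * δ k = π := by
  unfold δ
  field_simp

/-- the end angle of the arc `i` of the complete graph -/
noncomputable def fin (k i : ℕ) : ℝ := (if i ≤ k + 1 then 0 else π) + pos k i * δ k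

theorem pos_mul_lt {k i : ℕ} (h : i < 3 * k + 4) : (pos k i : ℝ) * δ k < π := by
  have h1 : ((pos k i : ℕ) : ℝ) ≤ 3 * k + 4 := by exact_mod_cast pos_le h
  have h2 := δ_mul k
  have h3 := δ_pos k
  nlinarith

theorem fin_lt {k i : ℕ} (h : i < 3 * k + 4) : fin k i < 2 * π := by
  have h1 := pos_mul_lt h
  have h2 := Real.pi_pos
  unfold fin
  split_ifs <;> linarith

theorem le_fin (k c : ℕ) : δ k ≤ fin k c := by
  have hδ := δ_pos k
  have h1 : (1 : ℝ) ≤ pos k c := by exact_mod_cast pos_pos k c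
  have h2 : δ k ≤ pos k c * δ k := by nlinarith
  have h3 := Real.pi_pos
  unfold fin
  split_ifs <;> linarith

/-- the unit of angle of the small arcs -/
noncomputable def η (m k : ℕ) : ℝ := δ k / (3 * (m + 1))

theorem η_pos (m k : ℕ) : 0 < η m k := by
  have := δ_pos k
  unfold η
  positivity

theorem η_mul (m k : ℕ) : 3 * ((m : ℝ) + 1) * η m k = δ k := by
  unfold η
  field_simp

theorem η_le (m k : ℕ) : η m k ≤ δ k := by
  have h1 := η_mul m k
  have h2 := η_pos m k
  have h3 : (0 : ℝ) ≤ m := Nat.cast_nonneg _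
  nlinarith

/-- the end angle of the arc `i` -/
noncomputable def fn (m k i : ℕ) : ℝ := if i < m then (i + 1) * η m k else fin k (i - m)

theorem small_lt {m k i : ℕ} (h : i < m) : (i + 1 : ℝ) * η m k < δ k / 3 := by
  have h1 := η_mul m k
  have h2 := η_pos m k
  have h3 : (i : ℝ) + 1 ≤ m := by exact_mod_cast h
  nlinarith

theorem δ_lt (k : ℕ) : δ k < π := by
  have h1 := δ_mul k
  have h2 := δ_pos k
  nlinarith

theorem fn_lt {m k i : ℕ} (h : i < m + (3 * k + 4)) : fn m k i < 2 * π := by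
  unfold fn
  split_ifs with h1
  · have := small_lt (k := k) h1
    have h2 := δ_lt k
    have h3 := Real.pi_pos
    have h4 := δ_pos k
    linarith
  · exact fin_lt (by omega)

theorem le_fn (m k i : ℕ) : η m k ≤ fn m k i := by
  unfold fn
  split_ifs with h1
  · have h2 := η_pos m k
    have h3 : (0 : ℝ) ≤ i := Nat.cast_nonneg _
    nlinarith
  · exact (η_le m k).trans (le_fin k _)

/-- the family -/
noncomputable def F (m k : ℕ) (i : Fin (m + (3 * k + 4))) : Arc where
  r := (i : ℕ) + 1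
  α₁ := 0
  α₂ := fn m k i
  r_pos := by positivity
  nonneg := le_refl _
  lt := by positivity
  le := (η_pos m k).le.trans (le_fn m k i)
  short := by
    rw [sub_zero]
    exact fn_lt i.2

theorem F_disjoint (m k : ℕ) (u v : Fin (m + (3 * k + 4))) (h : u ≠ v) :
    Disjoint (F m k u).set (F m k v).set := by
  rw [Set.disjoint_left]
  rintro z ⟨α, -, -, rfl⟩ ⟨β, -, -, hz⟩
  have := congrArg norm hz
  rw [norm_pt, norm_pt, abs_of_pos (F m k u).r_pos, abs_of_pos (F m k v).r_pos] at this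
  change ((u : ℕ) : ℝ) + 1 = (v : ℕ) + 1 at this
  have h2 : ((u : ℕ) : ℝ) = (v : ℕ) := by linarith
  exact h (Fin.ext (by exact_mod_cast h2))

/-- a point of the arc `c` with a polar angle in `(0, π)` and an arbitrary first coordinate -/
theorem mem_arc {m k : ℕ} {c : Fin (m + (3 * k + 4))} {ρ θ : ℝ} (h1 : 0 < θ) (h2 : θ < π)
    (h : pt ρ θ ∈ (F m k c).set) :
    (ρ = (c : ℕ) + 1 ∧ θ ≤ fn m k c) ∨ (ρ = -((c : ℕ) + 1) ∧ θ + π ≤ fn m k c) := by
  obtain ⟨α, a1, a2, a3⟩ := h
  have a1 : 0 ≤ α := a1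
  have a2 : α ≤ fn m k c := a2
  have a3 : pt ρ θ = pt ((c : ℕ) + 1) α := a3
  have hc : (0 : ℝ) < (c : ℕ) + 1 := by positivity
  have hf := fn_lt c.2
  rcases lt_trichotomy ρ 0 with hρ | hρ | hρ
  · right
    have e : pt ρ θ = pt (-ρ) (θ + π) := by rw [← pt_neg, neg_neg]
    rw [e] at a3
    obtain ⟨b1, b2⟩ := pt_inj (by linarith) hc (by linarith) (by linarith) a1 (by linarith) a3
    exact ⟨by linarith, by linarith⟩
  · exfalso
    have := congrArg norm a3
    rw [norm_pt, norm_pt, hρ, abs_zero, abs_of_pos hc] at this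
    linarith
  · left
    obtain ⟨b1, b2⟩ := pt_inj hρ hc h1.le (by linarith) a1 (by linarith) a3
    exact ⟨b1, by linarith⟩

theorem encard_Ico {n : ℕ} (S : Set (Fin n)) (a b k : ℕ) (h : ∀ c ∈ S, a ≤ (c : ℕ) ∧ (c : ℕ) < b)
    (hab : b ≤ a + k) : S.encard ≤ k := by
  have h1 : S.encard = (Fin.val '' S).encard := (Fin.val_injective.encard_image S).symm
  rw [h1]
  have h2 : Fin.val '' S ⊆ ((Finset.Ico a b : Finset ℕ) : Set ℕ) := by
    rintro _ ⟨c, hc, rfl⟩
    rw [Finset.mem_coe, Finset.mem_Ico]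
    exact h c hc
  refine (Set.encard_le_encard h2).trans ?_
  rw [Set.encard_coe_eq_coe_finsetCard, Nat.card_Ico]
  exact_mod_cast (by omega : b - a ≤ k)

/-- arcs with close radii see each other -/
theorem sees_near {m k : ℕ} {i j : Fin (m + (3 * k + 4))} (hij : i < j) (h : (j : ℕ) ≤ i + k + 1) :
    Sees k (F m k) i j := by
  have hδ := η_pos m k
  have hπ : η m k < π := lt_of_le_of_lt (η_le m k) (δ_lt k)
  have hij' : ((i : ℕ) : ℝ) < (j : ℕ) := by exact_mod_cast hij
  have hfin : ∀ c : ℕ, η m k ≤ fn m k c := le_fn m k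
  refine ⟨⟨(i : ℕ) + 1, (j : ℕ) + 1, η m k / 3, η m k * 2 / 3, by positivity, by positivity,
    by linarith, by linarith, by linarith⟩, ?_, ?_, ?_⟩
  · rintro z ⟨θ, h1, h2, rfl⟩
    have h1 : η m k / 3 ≤ θ := h1
    have h2 : θ ≤ η m k * 2 / 3 := h2
    refine ⟨θ, ?_, ?_, rfl⟩
    · change (0 : ℝ) ≤ θ
      linarith
    · have := hfin i
      change θ ≤ fn m k i
      linarith
  · rintro z ⟨θ, h1, h2, rfl⟩
    have h1 : η m k / 3 ≤ θ := h1
    have h2 : θ ≤ η m k * 2 / 3 := h2
    refine ⟨θ, ?_, ?_, rfl⟩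
    · change (0 : ℝ) ≤ θ
      linarith
    · have := hfin j
      change θ ≤ fn m k j
      linarith
  · refine encard_Ico _ (i + 1) j k ?_ (by omega)
    rintro c ⟨hci, hcj, z, hz, ρ, θ, r1, r2, t1, t2, rfl⟩
    have r1 : ((i : ℕ) : ℝ) + 1 ≤ ρ := r1
    have r2 : ρ ≤ ((j : ℕ) : ℝ) + 1 := r2
    have t1 : η m k / 3 ≤ θ := t1
    have t2 : θ ≤ η m k * 2 / 3 := t2
    have hi0 : (0 : ℝ) ≤ (i : ℕ) := Nat.cast_nonneg _
    have hc0 : (0 : ℝ) ≤ (c : ℕ) := Nat.cast_nonneg _
    rcases mem_arc (by linarith) (by linarith) hz with ⟨e, -⟩ | ⟨e, -⟩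
    · have a1 : ((i : ℕ) : ℝ) ≤ (c : ℕ) := by linarith
      have a2 : ((c : ℕ) : ℝ) ≤ (j : ℕ) := by linarith
      have a1' : (i : ℕ) ≤ c := by exact_mod_cast a1
      have a2' : (c : ℕ) ≤ j := by exact_mod_cast a2
      have b1 : (c : ℕ) ≠ i := fun h => hci (Fin.ext h)
      have b2 : (c : ℕ) ≠ j := fun h => hcj (Fin.ext h)
      omega
    · exfalso
      linarith

/-- A line of sight through the origin, in the window of angles `[x, y]`. -/
theorem sees_window {m k : ℕ} {i j : Fin (m + (3 * k + 4))} (x y : ℝ) (a b : ℕ) (hx : 0 < x)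
    (hxy : x < y) (hy : y < π) (hi : y ≤ fn m k i) (hj : y + π ≤ fn m k j) (hab : b ≤ a + k)
    (hblock : ∀ c : ℕ, c < m + (3 * k + 4) → c ≠ i → c ≠ j →
      ((c < i ∧ x ≤ fn m k c) ∨ (c < j ∧ x + π ≤ fn m k c)) → a ≤ c ∧ c < b) :
    Sees k (F m k) j i := by
  have hpi := Real.pi_pos
  refine ⟨⟨-((j : ℕ) + 1), (i : ℕ) + 1, x, y,
    neg_ne_zero.2 (by positivity), by positivity, ?_, hxy, by linarith⟩, ?_, ?_, ?_⟩
  · have h1 : (0 : ℝ) ≤ (i : ℕ) := Nat.cast_nonneg _
    have h2 : (0 : ℝ) ≤ (j : ℕ) := Nat.cast_nonneg _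
    linarith
  · rintro z ⟨θ, h1, h2, rfl⟩
    have h1 : x ≤ θ := h1
    have h2 : θ ≤ y := h2
    change pt (-((j : ℕ) + 1)) θ ∈ _
    rw [pt_neg]
    refine ⟨θ + π, ?_, ?_, rfl⟩
    · change (0 : ℝ) ≤ θ + π
      linarith
    · change θ + π ≤ fn m k j
      linarith
  · rintro z ⟨θ, h1, h2, rfl⟩
    have h1 : x ≤ θ := h1
    have h2 : θ ≤ y := h2
    refine ⟨θ, ?_, ?_, rfl⟩
    · change (0 : ℝ) ≤ θ
      linarith
    · change θ ≤ fn m k i
      linarith
  · refine encard_Ico _ a b k ?_ hab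
    rintro c ⟨hci, hcj, z, hz, ρ, θ, r1, r2, t1, t2, rfl⟩
    have r1 : -(((j : ℕ) : ℝ) + 1) ≤ ρ := r1
    have r2 : ρ ≤ ((i : ℕ) : ℝ) + 1 := r2
    have t1 : x ≤ θ := t1
    have t2 : θ ≤ y := t2
    have b1 : (c : ℕ) ≠ i := fun h => hcj (Fin.ext h)
    have b2 : (c : ℕ) ≠ j := fun h => hci (Fin.ext h)
    refine hblock c c.2 b1 b2 ?_
    rcases mem_arc (by linarith) (by linarith) hz with ⟨e, e'⟩ | ⟨e, e'⟩
    · left
      have a1 : ((c : ℕ) : ℝ) ≤ (i : ℕ) := by linarith
      have a1' : (c : ℕ) ≤ i := by exact_mod_cast a1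
      exact ⟨by omega, by linarith⟩
    · right
      have a1 : ((c : ℕ) : ℝ) ≤ (j : ℕ) := by linarith
      have a1' : (c : ℕ) ≤ j := by exact_mod_cast a1
      exact ⟨by omega, by linarith⟩

/-- two large arcs see each other through the origin: the line of sight is in the window number
`t` -/
theorem sees_origin {m k : ℕ} {i j : Fin (m + (3 * k + 4))} (i' j' : ℕ) (ei : (i : ℕ) = m + i')
    (ej : (j : ℕ) = m + j') (t a b : ℕ) (ht : t + 1 ≤ 3 * k + 4)
    (hi : k + 1 < i' ∨ t + 1 ≤ pos k i') (hj : k + 1 < j') (hj' : t + 1 ≤ pos k j')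
    (hab : b ≤ a + k)
    (hblock : ∀ c : ℕ, c < 3 * k + 4 → c ≠ i' → c ≠ j' →
      ((c < i' ∧ (k + 1 < c ∨ t + 1 ≤ pos k c)) ∨ (c < j' ∧ k + 1 < c ∧ t + 1 ≤ pos k c)) →
      a ≤ c ∧ c < b) :
    Sees k (F m k) j i := by
  have hδ := δ_pos k
  have hmul := δ_mul k
  have ht' : (t : ℝ) + 1 ≤ 3 * k + 4 := by exact_mod_cast ht
  have ht0 : (0 : ℝ) ≤ t := Nat.cast_nonneg _
  have hwin : ((t : ℝ) + 1) * δ k < π := by nlinarith
  have htδ : (0 : ℝ) ≤ t * δ k := by positivity
  have up : ∀ c : ℕ, t + 1 ≤ pos k c → ((t : ℝ) + 1) * δ k ≤ pos k c * δ k := by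
    intro c hc
    have : ((t : ℝ) + 1) ≤ pos k c := by exact_mod_cast hc
    exact mul_le_mul_of_nonneg_right this hδ.le
  have lo : ∀ c : ℕ, ¬ t + 1 ≤ pos k c → (pos k c : ℝ) * δ k ≤ t * δ k := by
    intro c hc
    have : (pos k c : ℝ) ≤ t := by exact_mod_cast (by omega : pos k c ≤ t)
    exact mul_le_mul_of_nonneg_right this hδ.le
  have hexp : ((t : ℝ) + 1) * δ k = t * δ k + δ k := by ring
  have hpi := Real.pi_pos
  have hi2 := i.2
  have hj2 := j.2
  refine sees_window (t * δ k + δ k / 3) (t * δ k + δ k * 2 / 3) (m + a) (m + b) (by linarith)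
    (by linarith) (by linarith) ?_ ?_ (by omega) ?_
  · rw [ei]
    unfold fn
    rw [if_neg (by omega), Nat.add_sub_cancel_left]
    unfold fin
    have hp : 0 ≤ (pos k i' : ℝ) * δ k := by positivity
    rcases hi with hi | hi
    · rw [if_neg (by omega)]
      linarith
    · have := up i' hi
      split_ifs <;> linarith
  · rw [ej]
    unfold fn
    rw [if_neg (by omega), Nat.add_sub_cancel_left]
    unfold fin
    rw [if_neg (by omega)]
    have := up j' hj'
    linarith
  · intro c hc hci hcj hh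
    rcases Nat.lt_or_ge c m with hcm | hcm
    · exfalso
      have h1 := small_lt (k := k) hcm
      have h2 : fn m k c = (c + 1) * η m k := by unfold fn; rw [if_pos hcm]
      rcases hh with ⟨_, h3⟩ | ⟨_, h3⟩
      · rw [h2] at h3; linarith
      · rw [h2] at h3; linarith
    · obtain ⟨c', rfl⟩ : ∃ c', c = m + c' := ⟨c - m, by omega⟩
      have h2 : fn m k (m + c') = fin k c' := by
        unfold fn; rw [if_neg (by omega), Nat.add_sub_cancel_left]
      rw [h2] at hh
      have hc' : c' < 3 * k + 4 := by omega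
      have hlow : ¬ (t + 1 ≤ pos k c') → (pos k c' : ℝ) * δ k < t * δ k + δ k / 3 := by
        intro h
        have := lo c' h
        linarith
      have := hblock c' hc' (by omega) (by omega) (by
        rcases hh with ⟨a1, e'⟩ | ⟨a1, e'⟩
        · left
          refine ⟨by omega, ?_⟩
          by_contra hc
          push Not at hc
          have h1 := hlow (by omega)
          unfold fin at e'
          rw [if_pos hc.1] at e'
          linarith
        · right
          have hk : k + 1 < c' := by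
            by_contra hc
            unfold fin at e'
            rw [if_pos (by omega)] at e'
            have := pos_mul_lt hc'
            linarith
          refine ⟨by omega, hk, ?_⟩
          by_contra hc
          have h1 := hlow hc
          unfold fin at e'
          rw [if_neg (by omega)] at e'
          linarith)
      omega

/-- any two large arcs see each other -/
theorem sees_large {m k : ℕ} {i j : Fin (m + (3 * k + 4))} (hij : i < j) (hm : m ≤ (i : ℕ)) :
    Sees k (F m k) i j ∨ Sees k (F m k) j i := by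
  have hij' : (i : ℕ) < j := hij
  have hjl := j.2
  obtain ⟨i', ei⟩ : ∃ i', (i : ℕ) = m + i' := ⟨i - m, by omega⟩
  obtain ⟨j', ej⟩ : ∃ j', (j : ℕ) = m + j' := ⟨j - m, by omega⟩
  by_cases h : (j : ℕ) ≤ i + k + 1
  · exact Or.inl (sees_near hij h)
  · right
    by_cases h1 : i' ≤ k + 1
    · by_cases h2 : j' ≤ 2 * k + 2
      · refine sees_origin i' j' ei ej (j' - k - 2) 0 i' (by omega) ?_ (by omega) ?_ (by omega) ?_
        · right; unfold pos; rw [if_pos h1]; omega
        · unfold pos; rw [if_neg (by omega), if_pos h2]; omega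
        · intro c hc hci hcj hh
          rcases hh with ⟨a1, a2⟩ | ⟨a1, a2, a3⟩
          · omega
          · exfalso
            unfold pos at a3
            rw [if_neg (by omega), if_pos (by omega)] at a3
            omega
      · refine sees_origin i' j' ei ej (k + 1 + i') (2 * k + 3) j' (by omega) ?_ (by omega) ?_
          (by omega) ?_
        · right; unfold pos; rw [if_pos h1]; omega
        · unfold pos; rw [if_neg (by omega), if_neg (by omega)]; omega
        · intro c hc hci hcj hh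
          rcases hh with ⟨a1, a2⟩ | ⟨a1, a2, a3⟩
          · exfalso
            rcases a2 with a2 | a2
            · omega
            · unfold pos at a2
              rw [if_pos (by omega)] at a2
              omega
          · unfold pos at a3
            rw [if_neg (by omega)] at a3
            split_ifs at a3 <;> omega
    · by_cases h2 : i' ≤ 2 * k + 2
      · refine sees_origin i' j' ei ej j' (k + 2) i' (by omega) (Or.inl (by omega)) (by omega) ?_
          (by omega) ?_
        · unfold pos; rw [if_neg (by omega), if_neg (by omega)]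
        · intro c hc hci hcj hh
          rcases hh with ⟨a1, a2⟩ | ⟨a1, a2, a3⟩
          · rcases a2 with a2 | a2
            · omega
            · unfold pos at a2
              split_ifs at a2 <;> omega
          · exfalso
            unfold pos at a3
            rw [if_neg (by omega)] at a3
            split_ifs at a3 <;> omega
      · exfalso
        omega

/-- a small arc sees the `k + 1` innermost long arcs -/
theorem sees_small {m k : ℕ} {i j : Fin (m + (3 * k + 4))} (hi : (i : ℕ) < m)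
    (hj1 : m + k + 2 ≤ (j : ℕ)) (hj2 : (j : ℕ) ≤ m + 2 * k + 2) :
    Sees k (F m k) j i := by
  have hη := η_pos m k
  have hpi := Real.pi_pos
  have hδ := δ_pos k
  have hδπ := δ_lt k
  have hs := small_lt (k := k) hi
  have hiη : (0 : ℝ) ≤ (i : ℕ) * η m k := by positivity
  have hexp : (((i : ℕ) : ℝ) + 1) * η m k = (i : ℕ) * η m k + η m k := by ring
  refine sees_window ((i : ℕ) * η m k + η m k / 3) ((i : ℕ) * η m k + η m k * 2 / 3) (m + k + 2) j
    (by linarith) (by linarith) (by linarith) ?_ ?_ (by omega) ?_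
  · unfold fn
    rw [if_pos hi]
    linarith
  · unfold fn
    rw [if_neg (by omega)]
    unfold fin
    rw [if_neg (by omega)]
    have h1 : (1 : ℝ) ≤ pos k (j - m) := by exact_mod_cast pos_pos k _
    have h2 : δ k ≤ pos k (j - m) * δ k := by nlinarith
    linarith
  · intro c hc hci hcj hh
    rcases hh with ⟨a1, a2⟩ | ⟨a1, a2⟩
    · exfalso
      unfold fn at a2
      rw [if_pos (by omega)] at a2
      have h1 : (c : ℝ) + 1 ≤ (i : ℕ) := by exact_mod_cast a1
      have h2 : ((c : ℝ) + 1) * η m k ≤ (i : ℕ) * η m k := mul_le_mul_of_nonneg_right h1 hη.le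
      linarith
    · refine ⟨?_, a1⟩
      by_contra hcon
      unfold fn at a2
      split_ifs at a2 with h1
      · have := small_lt (k := k) h1
        linarith
      · unfold fin at a2
        rw [if_pos (by omega)] at a2
        have := pos_mul_lt (k := k) (i := c - m) (by omega)
        linarith

/-! ### Counting the edges -/

/-- the visibility graph of the family -/
def Vis (m k : ℕ) : SimpleGraph (Fin (m + (3 * k + 4))) where
  Adj u v := u ≠ v ∧ (Sees k (F m k) u v ∨ Sees k (F m k) v u)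
  symm := ⟨fun _ _ h => ⟨h.1.symm, h.2.symm⟩⟩
  loopless := ⟨fun _ h => h.1 rfl⟩

theorem vis_semi (m k : ℕ) : SemiArcVisibility k (Vis m k) := by
  refine ⟨F m k, F_disjoint m k, ?_, ?_⟩
  · intro v
    rfl
  · intro u v huv
    exact ⟨fun h => h.2, fun h => ⟨huv, h⟩⟩

/-- the upper neighbours that are used in the count -/
def B (m k i : ℕ) : Finset ℕ :=
  if i < m then Finset.Ico (i + 1) (i + k + 2) ∪ Finset.Ico (m + k + 2) (m + 2 * k + 3)
  else Finset.Ico (i + 1) (m + (3 * k + 4))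

theorem card_B_small {m k i : ℕ} (h : i < m) : (B m k i).card = 2 * (k + 1) := by
  unfold B
  rw [if_pos h, Finset.card_union_of_disjoint, Nat.card_Ico, Nat.card_Ico]
  · omega
  · rw [Finset.disjoint_left]
    intro x hx hx'
    rw [Finset.mem_Ico] at hx hx'
    omega

theorem card_B_large {m k i : ℕ} (h : ¬ i < m) : (B m k i).card = m + (3 * k + 4) - (i + 1) := by
  unfold B
  rw [if_neg h, Nat.card_Ico]

theorem adj_B {m k : ℕ} {i j : ℕ} (hi : i < m + (3 * k + 4)) (hj : j ∈ B m k i) :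
    i < j ∧ ∃ hj' : j < m + (3 * k + 4), (Vis m k).Adj ⟨i, hi⟩ ⟨j, hj'⟩ := by
  unfold B at hj
  split_ifs at hj with h
  · rw [Finset.mem_union, Finset.mem_Ico, Finset.mem_Ico] at hj
    rcases hj with hj | hj
    · have hj' : j < m + (3 * k + 4) := by omega
      refine ⟨by omega, hj', ?_, Or.inl (sees_near (by rw [Fin.lt_def]; show i < j; omega)
        (by show j ≤ i + k + 1; omega))⟩
      intro h; rw [Fin.mk.injEq] at h; omega
    · have hj' : j < m + (3 * k + 4) := by omega
      refine ⟨by omega, hj', ?_, Or.inr (sees_small h (by show m + k + 2 ≤ j; omega)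
        (by show j ≤ m + 2 * k + 2; omega))⟩
      intro h; rw [Fin.mk.injEq] at h; omega
  · rw [Finset.mem_Ico] at hj
    refine ⟨by omega, hj.2, ?_, sees_large (by rw [Fin.lt_def]; show i < j; omega)
      (by show m ≤ i; omega)⟩
    intro h; rw [Fin.mk.injEq] at h; omega

theorem sum_B_le (m k : ℕ) :
    ∑ i ∈ Finset.range (m + (3 * k + 4)), (B m k i).card ≤ (Vis m k).edgeSet.ncard := by
  classical
  set n := m + (3 * k + 4) with hn
  rw [← Finset.card_sigma]
  have hinj : Set.InjOn (fun p : (Σ _ : ℕ, ℕ) => (s(p.1, p.2) : Sym2 ℕ))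
      ((Finset.range n).sigma (B m k) : Finset (Σ _ : ℕ, ℕ)) := by
    rintro ⟨i, j⟩ hp ⟨i', j'⟩ hq hpq
    rw [Finset.mem_coe, Finset.mem_sigma, Finset.mem_range] at hp hq
    have h1 := (adj_B hp.1 hp.2).1
    have h2 := (adj_B hq.1 hq.2).1
    simp only [Sym2.eq_iff] at hpq
    rcases hpq with ⟨h3, h4⟩ | ⟨h3, h4⟩
    · rw [h3, h4]
    · dsimp only at h1 h2
      omega
  rw [← Finset.card_image_of_injOn hinj, ← Set.ncard_coe_finset]
  have himg : ((Sym2.map Fin.val) '' (Vis m k).edgeSet).ncard = (Vis m k).edgeSet.ncard :=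
    Set.ncard_image_of_injective _ (Sym2.map.injective Fin.val_injective)
  rw [← himg]
  apply Set.ncard_le_ncard ?_ (Set.toFinite _)
  intro x hx
  rw [Finset.mem_coe, Finset.mem_image] at hx
  obtain ⟨⟨i, j⟩, hp, rfl⟩ := hx
  rw [Finset.mem_sigma, Finset.mem_range] at hp
  obtain ⟨h1, h2, h3⟩ := adj_B hp.1 hp.2
  refine ⟨s(⟨i, hp.1⟩, ⟨j, h2⟩), ?_, rfl⟩
  rw [SimpleGraph.mem_edgeSet]
  exact h3

theorem two_mul_sum_B (m k : ℕ) :
    2 * ∑ i ∈ Finset.range (m + (3 * k + 4)), (B m k i).card =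
      4 * (k + 1) * m + (3 * k + 4) * (3 * k + 3) := by
  rw [Finset.sum_range_add]
  have h1 : ∑ i ∈ Finset.range m, (B m k i).card = m * (2 * (k + 1)) := by
    rw [Finset.sum_congr rfl (fun i hi => card_B_small (Finset.mem_range.mp hi)), Finset.sum_const,
      Finset.card_range, smul_eq_mul]
  have h2 : ∑ i ∈ Finset.range (3 * k + 4), (B m k (m + i)).card =
      ∑ i ∈ Finset.range (3 * k + 4), i := by
    rw [← Finset.sum_range_reflect]
    refine Finset.sum_congr rfl fun i hi => ?_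
    rw [Finset.mem_range] at hi
    rw [card_B_large (by omega)]
    omega
  have h3 := Finset.sum_range_id_mul_two (3 * k + 4)
  rw [h1, h2]
  have h4 : 3 * k + 4 - 1 = 3 * k + 3 := by omega
  rw [h4] at h3
  nlinarith

theorem bdd (k n : ℕ) :
    BddAbove {N : ℕ | ∃ G : SimpleGraph (Fin n), SemiArcVisibility k G ∧ N = G.edgeSet.ncard} := by
  classical
  refine ⟨n.choose 2, ?_⟩
  rintro N ⟨G, -, rfl⟩
  have h1 : G.edgeSet.ncard ≤ (⊤ : SimpleGraph (Fin n)).edgeSet.ncard :=
    Set.ncard_le_ncard (SimpleGraph.edgeSet_mono le_top) (Set.toFinite _)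
  have h2 : (⊤ : SimpleGraph (Fin n)).edgeSet.ncard = n.choose 2 := by
    rw [← SimpleGraph.coe_edgeFinset, Set.ncard_coe_finset, SimpleGraph.card_edgeFinset_top_eq_card_choose_two,
      Fintype.card_fin]
  omega

theorem le_e (m k : ℕ) : 4 * (k + 1) * m + (3 * k + 4) * (3 * k + 3) ≤ 2 * e k (m + (3 * k + 4)) := by
  have h1 : (Vis m k).edgeSet.ncard ≤ e k (m + (3 * k + 4)) :=
    le_csSup (bdd k _) ⟨Vis m k, vis_semi m k, rfl⟩
  have h2 := sum_B_le m k
  have h3 := two_mul_sum_B m k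
  omega

theorem e_le (k n : ℕ) : e k n ≤ n.choose 2 := by
  classical
  rcases Set.eq_empty_or_nonempty
    {N : ℕ | ∃ G : SimpleGraph (Fin n), SemiArcVisibility k G ∧ N = G.edgeSet.ncard} with h | h
  · unfold e
    rw [h]
    simp
  · apply csSup_le h
    rintro N ⟨G, -, rfl⟩
    have h1 : G.edgeSet.ncard ≤ (⊤ : SimpleGraph (Fin n)).edgeSet.ncard :=
      Set.ncard_le_ncard (SimpleGraph.edgeSet_mono le_top) (Set.toFinite _)
    have h2 : (⊤ : SimpleGraph (Fin n)).edgeSet.ncard = n.choose 2 := by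
      rw [← SimpleGraph.coe_edgeFinset, Set.ncard_coe_finset,
        SimpleGraph.card_edgeFinset_top_eq_card_choose_two, Fintype.card_fin]
    omega

/-- For all `k ≥ 0` and `n ≥ 3k+4` one has `e_k(n) ≥ (k+1)(2n - (3k+4)/2)`, which exceeds the
conjectured value `(k+1)(2n - (3k+6)/2)`; and `e_k(3k+4) = C(3k+4,2)`. -/
theorem result :
    (∀ k n : ℕ, 3 * k + 4 ≤ n →
      ((k : ℝ) + 1) * (2 * n - (3 * k + 4) / 2) ≤ e k n ∧
      ((k : ℝ) + 1) * (2 * n - (3 * k + 6) / 2) < e k n) ∧
    ∀ k : ℕ, e k (3 * k + 4) = (3 * k + 4).choose 2 := by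
  refine ⟨?_, ?_⟩
  · intro k n hn
    obtain ⟨m, rfl⟩ : ∃ m, n = m + (3 * k + 4) := ⟨n - (3 * k + 4), by omega⟩
    have h1 := le_e m k
    have h2 : (4 * ((k : ℝ) + 1) * m + (3 * k + 4) * (3 * k + 3)) ≤ 2 * e k (m + (3 * k + 4)) := by
      exact_mod_cast h1
    have h3 : (0 : ℝ) ≤ k := Nat.cast_nonneg _
    push_cast
    constructor
    · nlinarith
    · nlinarith
  · intro k
    apply le_antisymm (e_le k _)
    have h1 := le_e 0 k
    have h2 := Nat.choose_two_right (3 * k + 4)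
    have h3 : 3 * k + 4 - 1 = 3 * k + 3 := by omega
    rw [h3] at h2
    rw [Nat.zero_add] at h1
    rw [h2]
    omega

end Pool.Agent.Results.MP_5402c6_co.ConjectureFails
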